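import Mathlib
import Pool.Agent.Y659.MPS.Stm

/-!
Words in a spanning pair.
-/

namespace Pool.Agent.Y79.MPS

open Matrix

variable {D : ℕ}

lemma words {W : Submodule ℂ (Matrix (Fin D) (Fin D) ℂ)} {X w : Matrix (Fin D) (Fin D) ℂ}
    (hW : W ≤ Submodule.span ℂ {X, w}) (P : Submodule ℂ (Matrix (Fin D) (Fin D) ℂ))
    (h1 : 1 ∈ P) (hX : ∀ A ∈ P, X * A ∈ P) (hw : ∀ A ∈ P, w * A ∈ P) (n : ℕ) : W ^ n ≤ P := by
  induction n with
  | zero => rw [pow_zero, Submodule.one_le]; exact h1
  | succ n ih =>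
    rw [pow_succ', Submodule.mul_le]
    intro B hB A hA
    obtain ⟨a, b, rfl⟩ := Submodule.mem_span_pair.1 (hW hB)
    rw [add_mul, smul_mul_assoc, smul_mul_assoc]
    exact P.add_mem (P.smul_mem _ (hX _ (ih hA))) (P.smul_mem _ (hw _ (ih hA)))

lemma exists_entry {w : Matrix (Fin D) (Fin D) ℂ} (hw : w ≠ 0) : ∃ i j, w i j ≠ 0 := by
  by_contra h
  push Not at h
  exact hw (by ext i j; simpa using h i j)

lemma eq_zero_of_sandwich {w : Matrix (Fin D) (Fin D) ℂ}
    (h : ∀ A : Matrix (Fin D) (Fin D) ℂ, w * A * w = 0) : w = 0 := by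
  by_contra hw
  obtain ⟨i, j, hij⟩ := exists_entry hw
  have h1 := congrFun (congrFun (h (Matrix.single j i 1)) i) j
  rw [Matrix.mul_apply, Finset.sum_eq_single i] at h1
  · rw [Matrix.mul_single_apply_same, mul_one, Matrix.zero_apply] at h1
    exact hij (mul_self_eq_zero.1 h1)
  · intro b _ hb
    rw [Matrix.mul_single_apply_of_ne _ _ _ _ _ hb, zero_mul]
  · intro h'
    exact absurd (Finset.mem_univ _) h'

/-- some `w X^i w` does not vanish -/
lemma exists_ne {W : Submodule ℂ (Matrix (Fin D) (Fin D) ℂ)} {X w : Matrix (Fin D) (Fin D) ℂ}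
    {N : ℕ} (hN : W ^ N = ⊤) (hW : W ≤ Submodule.span ℂ {X, w}) (hw : w ≠ 0) :
    ∃ i, w * X ^ i * w ≠ 0 := by
  by_contra h
  push Not at h
  apply hw
  apply eq_zero_of_sandwich
  let P : Submodule ℂ (Matrix (Fin D) (Fin D) ℂ) :=
    { carrier := {A | ∀ k : ℕ, w * X ^ k * A * w = 0}
      add_mem' := by
        intro A B hA hB k
        rw [mul_add, add_mul, hA k, hB k, add_zero]
      zero_mem' := by
        intro k
        rw [mul_zero, zero_mul]
      smul_mem' := by
        intro c A hA k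
        rw [mul_smul_comm, smul_mul_assoc, hA k, smul_zero] }
  have hP : W ^ N ≤ P := by
    apply words hW
    · intro k
      rw [mul_one]
      exact h k
    · intro A hA k
      have := hA (k + 1)
      rw [pow_succ] at this
      simpa only [mul_assoc] using this
    · intro A _ k
      have : w * X ^ k * (w * A) * w = (w * X ^ k * w) * (A * w) := by
        simp only [mul_assoc]
      rw [this, h k, zero_mul]
  intro A
  have hA : A ∈ P := hP (hN ▸ Submodule.mem_top)
  have := hA 0
  rwa [pow_zero, mul_one] at this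

end Pool.Agent.Y79.MPS
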