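import Mathlib
import Pool.Agent.Y79.MPS.Base

/-!
The first nonvanishing `w X^(c-1) w`.
-/

namespace Pool.Agent.Y79.MPS

open Matrix

variable {D : ℕ}

/-- sums of the column spaces of `w, X w, …, X^l w` -/
noncomputable def EE (X w : Matrix (Fin D) (Fin D) ℂ) : ℕ → Submodule ℂ (Fin D → ℂ)
  | 0 => LinearMap.range w.mulVecLin
  | l + 1 => EE X w l ⊔ (EE X w l).map X.mulVecLin

lemma EE_ker (X w : Matrix (Fin D) (Fin D) ℂ) (c : ℕ)
    (h : ∀ i, i + 2 ≤ c → w * X ^ i * w = 0) (l : ℕ) :
    ∀ j, j + l + 2 ≤ c → EE X w l ≤ LinearMap.ker (w * X ^ j).mulVecLin := by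
  induction l with
  | zero =>
    rintro j hj _ ⟨u, rfl⟩
    rw [LinearMap.mem_ker, Matrix.mulVecLin_apply, Matrix.mulVecLin_apply, Matrix.mulVec_mulVec,
      h j (by omega), Matrix.zero_mulVec]
  | succ l ih =>
    intro j hj
    refine sup_le (ih j (by omega)) ?_
    rintro _ ⟨u, hu, rfl⟩
    have := ih (j + 1) (by omega) hu
    rw [LinearMap.mem_ker, Matrix.mulVecLin_apply] at this ⊢
    rw [Matrix.mulVecLin_apply, Matrix.mulVec_mulVec, mul_assoc, ← pow_succ]
    exact this

lemma EE_mono (X w : Matrix (Fin D) (Fin D) ℂ) (l : ℕ) : EE X w l ≤ EE X w (l + 1) := le_sup_left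

lemma EE_zero_le (X w : Matrix (Fin D) (Fin D) ℂ) (l : ℕ) :
    LinearMap.range w.mulVecLin ≤ EE X w l := by
  induction l with
  | zero => exact le_rfl
  | succ l ih => exact ih.trans (EE_mono X w l)

/-- a nonzero space of columns stable by the words is everything -/
lemma stable_top {W : Submodule ℂ (Matrix (Fin D) (Fin D) ℂ)} {X w : Matrix (Fin D) (Fin D) ℂ}
    {N : ℕ} (hN : W ^ N = ⊤) (hW : W ≤ Submodule.span ℂ {X, w}) (E : Submodule ℂ (Fin D → ℂ))
    (hX : ∀ v ∈ E, X *ᵥ v ∈ E) (hw : ∀ v ∈ E, w *ᵥ v ∈ E) (hE : ∃ v ∈ E, v ≠ 0) : E = ⊤ := by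
  let P : Submodule ℂ (Matrix (Fin D) (Fin D) ℂ) :=
    { carrier := {A | ∀ v ∈ E, A *ᵥ v ∈ E}
      add_mem' := by
        intro A B hA hB v hv
        rw [Matrix.add_mulVec]
        exact E.add_mem (hA v hv) (hB v hv)
      zero_mem' := by
        intro v _
        rw [Matrix.zero_mulVec]
        exact E.zero_mem
      smul_mem' := by
        intro c A hA v hv
        rw [Matrix.smul_mulVec]
        exact E.smul_mem _ (hA v hv) }
  have hP : W ^ N ≤ P := by
    apply words hW
    · intro v hv
      rwa [Matrix.one_mulVec]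
    · intro A hA v hv
      rw [← Matrix.mulVec_mulVec]
      exact hX _ (hA v hv)
    · intro A hA v hv
      rw [← Matrix.mulVec_mulVec]
      exact hw _ (hA v hv)
  obtain ⟨v, hv, hv0⟩ := hE
  obtain ⟨j, hj⟩ : ∃ j, v j ≠ 0 := by
    by_contra hh
    push Not at hh
    exact hv0 (funext hh)
  rw [eq_top_iff]
  intro u _
  have hA : Matrix.vecMulVec u (Pi.single j (v j)⁻¹) ∈ P := hP (hN ▸ Submodule.mem_top)
  have := hA v hv
  have e : Matrix.vecMulVec u (Pi.single j (v j)⁻¹) *ᵥ v = u := by
    ext i
    rw [Matrix.mulVec, dotProduct, Finset.sum_eq_single j]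
    · rw [Matrix.vecMulVec_apply, Pi.single_eq_same, mul_assoc, inv_mul_cancel₀ hj, mul_one]
    · intro b _ hb
      rw [Matrix.vecMulVec_apply, Pi.single_eq_of_ne hb, mul_zero, zero_mul]
    · intro h'
      exact absurd (Finset.mem_univ _) h'
  rwa [e] at this

theorem S3A : Pool.Agent.Y659.MPS.St_S3A := by
  intro D W X w N hX hXu hN hwW hW hw hww hr
  have hex := exists_ne hN hW hw
  classical
  have hi := Nat.find_spec hex
  have hmin : ∀ j, j < Nat.find hex → w * X ^ j * w = 0 := fun j hj => by
    have := Nat.find_min hex hj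
    push Not at this
    exact this
  set i := Nat.find hex with hidef
  have hi0 : i ≠ 0 := by
    intro h0
    rw [h0, pow_zero, mul_one] at hi
    exact hi hww
  have hz : ∀ j, j + 2 ≤ i + 1 → w * X ^ j * w = 0 := fun j hj => hmin j (by omega)
  refine ⟨i + 1, by omega, ?_, hz, by simpa using hi⟩
  have hker : ∀ l, l + 2 ≤ i + 1 → EE X w l ≤ LinearMap.ker w.mulVecLin := by
    intro l hl
    have := EE_ker X w (i + 1) hz l 0 (by omega)
    rwa [pow_zero, mul_one] at this
  have hgrow : ∀ l, l + 2 ≤ i + 1 → w.rank + l ≤ Module.finrank ℂ (EE X w l) := by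
    intro l
    induction l with
    | zero => intro _; exact le_rfl
    | succ l ih =>
      intro hl
      have h1 := ih (by omega)
      have hlt : EE X w l < EE X w (l + 1) := by
        refine lt_of_le_of_ne (EE_mono X w l) ?_
        intro heq
        have hst : EE X w l = ⊤ := by
          apply stable_top hN hW
          · intro v hv
            rw [heq]
            exact Submodule.mem_sup_right (Submodule.mem_map_of_mem hv)
          · intro v hv
            have := hker l (by omega) hv
            rw [LinearMap.mem_ker, Matrix.mulVecLin_apply] at this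
            rw [this]
            exact Submodule.zero_mem _
          · by_contra hh
            push Not at hh
            have : Module.finrank ℂ (EE X w l) = 0 := by
              rw [(Submodule.eq_bot_iff _).2 hh]
              exact finrank_bot ℂ _
            omega
        have h2 := hker l (by omega)
        rw [hst, top_le_iff, LinearMap.ker_eq_top] at h2
        apply hw
        have : w.mulVecLin = (0 : Matrix (Fin D) (Fin D) ℂ).mulVecLin := by
          rw [h2, Matrix.mulVecLin_zero]
        exact Matrix.mulVec_injective (by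
          funext v
          have := LinearMap.congr_fun this v
          simpa only [Matrix.mulVecLin_apply] using this)
      have := Submodule.finrank_lt_finrank_of_lt hlt
      omega
  have h1 := hgrow (i - 1) (by omega)
  have h2 := Submodule.finrank_mono (hker (i - 1) (by omega))
  have h3 := LinearMap.finrank_range_add_finrank_ker w.mulVecLin
  have h4 : Module.finrank ℂ (LinearMap.range w.mulVecLin) = w.rank := rfl
  rw [h4, Module.finrank_fin_fun] at h3
  omega

end Pool.Agent.Y79.MPS
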