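import Mathlib
import Pool.Agent.Y79.MPS.Base

/-!
The case `α = 0` is impossible.
-/

namespace Pool.Agent.Y79.MPS

open Matrix
open Pool.Agent.Y659.MPS

variable {D : ℕ}

/-- `P = a_c w X^c` or its mirror image contradicts the rank condition -/
lemma rank_contra {W : Submodule ℂ (Matrix (Fin D) (Fin D) ℂ)} {X w : Matrix (Fin D) (Fin D) ℂ}
    (hX : X ∈ W) (hXu : IsUnit X) (hR : RankSum W) (hw : w ∈ W)
    (hW : W ≤ Submodule.span ℂ {X, w}) (hw0 : w ≠ 0) (hww : w * w = 0) (c : ℕ) (b : ℂ)
    (hb : b ≠ 0) :
    w * X ^ c * (w - b • X) ≠ 0 ∧ (w - b • X) * X ^ c * w ≠ 0 := by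
  have hX0 : X * X ≠ 0 := by
    intro h
    have h1 : IsUnit (X * X) := hXu.mul hXu
    rw [h] at h1
    have h2 := h1.mul_left_cancel (show (0 : Matrix (Fin D) (Fin D) ℂ) * w = 0 * 0 by simp)
    exact hw0 h2
  have hv : w - b • X ≠ 0 := by
    intro h
    rw [sub_eq_zero] at h
    rw [h, smul_mul_smul_comm] at hww
    rcases smul_eq_zero.1 hww with h1 | h1
    · exact hb (mul_self_eq_zero.1 h1)
    · exact hX0 h1
  have hvW : w - b • X ∈ W := W.sub_mem hw (W.smul_mem _ hX)
  have hsp : W ≤ Submodule.span ℂ {w, w - b • X} := by
    refine hW.trans ?_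
    rw [Submodule.span_le]
    rintro A hA
    rcases hA with hA | hA
    · rw [hA]
      refine Submodule.mem_span_pair.2 ⟨b⁻¹, -b⁻¹, ?_⟩
      rw [smul_sub, smul_smul, neg_mul, inv_mul_cancel₀ hb, neg_smul, neg_smul, one_smul]
      abel
    · rw [Set.mem_singleton_iff] at hA
      rw [hA]
      exact Submodule.subset_span (Set.mem_insert _ _)
  have hr := hR w hw (w - b • X) hvW hw0 hv hsp
  have hdet : IsUnit (X ^ c).det := by
    rw [← Matrix.isUnit_iff_isUnit_det]
    exact hXu.pow c
  constructor
  · intro h
    have h1 := Matrix.rank_add_rank_le_card_of_mul_eq_zero h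
    rw [Matrix.rank_mul_eq_left_of_isUnit_det _ _ hdet, Fintype.card_fin] at h1
    omega
  · intro h
    rw [mul_assoc] at h
    have h1 := Matrix.rank_add_rank_le_card_of_mul_eq_zero h
    rw [Matrix.rank_mul_eq_right_of_isUnit_det _ _ hdet, Fintype.card_fin] at h1
    omega

/-- when `a 0 ≠ 0`, the product `w X^(c-1) w X^(c-1) w` does not vanish -/
lemma q_ne {W : Submodule ℂ (Matrix (Fin D) (Fin D) ℂ)} {X w : Matrix (Fin D) (Fin D) ℂ}
    {N c : ℕ} {a : ℕ → ℂ} (hN : W ^ N = ⊤) (hW : W ≤ Submodule.span ℂ {X, w}) (hw : w ≠ 0)
    (hc : 2 ≤ c) (hz : ∀ i, i + 2 ≤ c → w * X ^ i * w = 0) (hne : w * X ^ (c - 1) * w ≠ 0)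
    (hP : w * X ^ (c - 1) * w = ∑ j ∈ Finset.range (c + 1), a j • (X ^ (c - j) * w * X ^ j))
    (ha : a 0 ≠ 0) : w * X ^ (c - 1) * w * X ^ (c - 1) * w ≠ 0 := by
  intro hQ
  let T : Submodule ℂ (Matrix (Fin D) (Fin D) ℂ) :=
    Submodule.span ℂ {B | ∃ i, i < c ∧ ∃ A, B = X ^ i * w * A}
  have hT : ∀ i, i < c → ∀ A, X ^ i * w * A ∈ T := fun i hi A =>
    Submodule.subset_span ⟨i, hi, A, rfl⟩
  have hT0 : ∀ A, w * A ∈ T := by
    intro A
    have := hT 0 (by omega) A
    rwa [pow_zero, one_mul] at this
  have hTr : ∀ B ∈ T, ∀ C, B * C ∈ T := by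
    intro B hB C
    induction hB using Submodule.span_induction with
    | mem B hB =>
      obtain ⟨i, hi, A, rfl⟩ := hB
      rw [mul_assoc]
      exact hT i hi _
    | zero => rw [zero_mul]; exact T.zero_mem
    | add B B' _ _ h h' => rw [add_mul]; exact T.add_mem h h'
    | smul s B _ h => rw [smul_mul_assoc]; exact T.smul_mem _ h
  have hXc : X ^ c * w ∈ T := by
    have h1 : a 0 • (X ^ c * w) = w * (X ^ (c - 1) * w) -
        ∑ j ∈ Finset.range c, a (j + 1) • (X ^ (c - (j + 1)) * w * X ^ (j + 1)) := by
      rw [← mul_assoc, hP, Finset.sum_range_succ']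
      simp only [Nat.sub_zero, pow_zero, mul_one]
      abel
    have h2 : a 0 • (X ^ c * w) ∈ T := by
      rw [h1]
      refine T.sub_mem (hT0 _) (T.sum_mem fun j _ => T.smul_mem _ (hT _ (by omega) _))
    have h3 : X ^ c * w = (a 0)⁻¹ • (a 0 • (X ^ c * w)) := by
      rw [smul_smul, inv_mul_cancel₀ ha, one_smul]
    rw [h3]
    exact T.smul_mem _ h2
  have hTX : ∀ B ∈ T, X * B ∈ T := by
    intro B hB
    induction hB using Submodule.span_induction with
    | mem B hB =>
      obtain ⟨i, hi, A, rfl⟩ := hB
      have e : X * (X ^ i * w * A) = X ^ (i + 1) * w * A := by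
        rw [pow_succ']
        simp only [mul_assoc]
      rw [e]
      by_cases hi' : i + 1 < c
      · exact hT _ hi' _
      · have : i + 1 = c := by omega
        rw [this]
        exact hTr _ hXc _
    | zero => rw [mul_zero]; exact T.zero_mem
    | add B B' _ _ h h' => rw [mul_add]; exact T.add_mem h h'
    | smul s B _ h => rw [mul_smul_comm]; exact T.smul_mem _ h
  let U : Submodule ℂ (Matrix (Fin D) (Fin D) ℂ) :=
    { carrier := {A | A * w ∈ T}
      add_mem' := by
        intro A B hA hB
        change (A + B) * w ∈ T
        rw [add_mul]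
        exact T.add_mem hA hB
      zero_mem' := by
        change (0 : Matrix (Fin D) (Fin D) ℂ) * w ∈ T
        rw [zero_mul]
        exact T.zero_mem
      smul_mem' := by
        intro s A hA
        change (s • A) * w ∈ T
        rw [smul_mul_assoc]
        exact T.smul_mem _ hA }
  have hU : W ^ N ≤ U := by
    apply words hW
    · change 1 * w ∈ T
      have := hT0 1
      rwa [one_mul, ← mul_one w]
    · intro A hA
      change X * A * w ∈ T
      rw [mul_assoc]
      exact hTX _ hA
    · intro A _
      change w * A * w ∈ T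
      rw [mul_assoc]
      exact hT0 _
  have hall : ∀ A B, A * w * B ∈ T := by
    intro A B
    have : A ∈ U := hU (hN ▸ Submodule.mem_top)
    exact hTr _ this B
  obtain ⟨i, j, hij⟩ := exists_entry hw
  have hone : (1 : Matrix (Fin D) (Fin D) ℂ) ∈ T := by
    have e : (1 : Matrix (Fin D) (Fin D) ℂ) =
        ∑ p : Fin D, Matrix.single p i ((w i j)⁻¹) * w * Matrix.single j p 1 := by
      simp only [Matrix.single_mul_mul_single, mul_one, inv_mul_cancel₀ hij]
      ext p q
      rw [Matrix.sum_apply]
      by_cases hpq : p = q
      · subst hpq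
        rw [Matrix.one_apply_eq, Finset.sum_eq_single p]
        · simp
        · intro b _ hb
          simp [hb]
        · intro h'
          exact absurd (Finset.mem_univ _) h'
      · rw [Matrix.one_apply_ne hpq]
        symm
        apply Finset.sum_eq_zero
        intro b _
        rw [Matrix.single_apply, if_neg]
        rintro ⟨h1, h2⟩
        exact hpq (h1.symm.trans h2)
    rw [e]
    exact T.sum_mem fun p _ => hall _ _
  have hwT : ∀ B ∈ T, ∃ A, w * B = (w * X ^ (c - 1) * w) * A := by
    intro B hB
    induction hB using Submodule.span_induction with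
    | mem B hB =>
      obtain ⟨i, hi, A, rfl⟩ := hB
      by_cases hi' : i + 2 ≤ c
      · refine ⟨0, ?_⟩
        have e : w * (X ^ i * w * A) = w * X ^ i * w * A := by simp only [mul_assoc]
        rw [e, hz i hi', zero_mul, mul_zero]
      · refine ⟨A, ?_⟩
        have : i = c - 1 := by omega
        rw [this]
        simp only [mul_assoc]
    | zero => exact ⟨0, by rw [mul_zero, mul_zero]⟩
    | add B B' _ _ h h' =>
      obtain ⟨A, hA⟩ := h
      obtain ⟨A', hA'⟩ := h'
      exact ⟨A + A', by rw [mul_add, mul_add, hA, hA']⟩
    | smul s B _ h =>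
      obtain ⟨A, hA⟩ := h
      exact ⟨s • A, by rw [mul_smul_comm, mul_smul_comm, hA]⟩
  obtain ⟨A, hA⟩ := hwT 1 hone
  rw [mul_one] at hA
  apply hne
  calc w * X ^ (c - 1) * w = w * X ^ (c - 1) * (w * X ^ (c - 1) * w * A) := by rw [← hA]
    _ = (w * X ^ (c - 1) * w * X ^ (c - 1) * w) * A := by simp only [mul_assoc]
    _ = 0 := by rw [hQ, zero_mul]

lemma tm (w X : Matrix (Fin D) (Fin D) ℂ) (i k j l : ℕ) (s : ℂ) :
    w * X ^ i * s • (X ^ k * w * X ^ j) * X ^ l * w =
      s • (w * X ^ (i + k) * w * X ^ (j + l) * w) := by
  rw [pow_add, pow_add]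
  simp only [mul_smul_comm, smul_mul_assoc, mul_assoc]

/-- the middle coefficients vanish -/
lemma mid {X w : Matrix (Fin D) (Fin D) ℂ} {c : ℕ} {a : ℕ → ℂ} (hc : 2 ≤ c)
    (hz : ∀ i, i + 2 ≤ c → w * X ^ i * w = 0)
    (hP : w * X ^ (c - 1) * w = ∑ j ∈ Finset.range (c + 1), a j • (X ^ (c - j) * w * X ^ j))
    (hQ : w * X ^ (c - 1) * w * X ^ (c - 1) * w ≠ 0) : ∀ j, 1 ≤ j → j < c → a j = 0 := by
  intro j hj1 hjc
  have h1 : w * X ^ (j - 1) * (w * X ^ (c - 1) * w) * X ^ (c - 1 - j) * w = 0 := by
    have e : w * X ^ (j - 1) * (w * X ^ (c - 1) * w) * X ^ (c - 1 - j) * w =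
        (w * X ^ (j - 1) * w) * (X ^ (c - 1) * w * X ^ (c - 1 - j) * w) := by
      simp only [mul_assoc]
    rw [e, hz (j - 1) (by omega), zero_mul]
  rw [hP, Finset.mul_sum, Finset.sum_mul, Finset.sum_mul, Finset.sum_eq_single j] at h1
  · rw [tm] at h1
    have e1 : j - 1 + (c - j) = c - 1 := by omega
    have e2 : j + (c - 1 - j) = c - 1 := by omega
    rw [e1, e2] at h1
    rcases smul_eq_zero.1 h1 with h2 | h2
    · exact h2
    · exact absurd h2 hQ
  · intro k hk hkj
    rw [Finset.mem_range] at hk
    rw [tm]
    rcases lt_or_gt_of_ne hkj with hlt | hgt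
    · have e : w * X ^ (j - 1 + (c - k)) * w * X ^ (k + (c - 1 - j)) * w =
          w * X ^ (j - 1 + (c - k)) * (w * X ^ (k + (c - 1 - j)) * w) := by
        simp only [mul_assoc]
      rw [e, hz _ (by omega), mul_zero, smul_zero]
    · rw [hz _ (by omega), zero_mul, zero_mul, smul_zero]
  · intro h'
    exact absurd (Finset.mem_range.2 (by omega)) h'

theorem S3C : Pool.Agent.Y659.MPS.St_S3C := by
  intro D W X w N c a hX hXu hN1 hN hR hwW hW hw hc hz hne hP
  have hww : w * w = 0 := by
    have := hz 0 (by omega)
    rwa [pow_zero, mul_one] at this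
  have hcancel : ∀ (A : Matrix (Fin D) (Fin D) ℂ) (n : ℕ), A * X ^ n = 0 → A = 0 := by
    intro A n h
    exact (hXu.pow n).mul_right_cancel (by rw [h, zero_mul])
  by_cases ha0 : a 0 = 0
  · -- all coefficients but the last vanish
    have hall : ∀ i, i < c → a i = 0 := by
      intro i
      induction i using Nat.strong_induction_on with
      | _ i ih =>
        intro hi
        rcases Nat.eq_zero_or_pos i with rfl | hi0
        · exact ha0
        have h1 : w * X ^ (i - 1) * (w * X ^ (c - 1) * w) = 0 := by
          have e : w * X ^ (i - 1) * (w * X ^ (c - 1) * w) =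
              (w * X ^ (i - 1) * w) * (X ^ (c - 1) * w) := by simp only [mul_assoc]
          rw [e, hz (i - 1) (by omega), zero_mul]
        rw [hP, Finset.mul_sum, Finset.sum_eq_single i] at h1
        · have e : w * X ^ (i - 1) * a i • (X ^ (c - i) * w * X ^ i) =
              a i • ((w * X ^ (c - 1) * w) * X ^ i) := by
            rw [mul_smul_comm]
            congr 1
            have : c - 1 = (i - 1) + (c - i) := by omega
            rw [this, pow_add]
            simp only [mul_assoc]
          rw [e] at h1
          rcases smul_eq_zero.1 h1 with h2 | h2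
          · exact h2
          · exact absurd (hcancel _ _ h2) hne
        · intro j hj hji
          rcases lt_or_gt_of_ne hji with hlt | hgt
          · rw [ih j hlt (by omega), zero_smul, mul_zero]
          · rw [Finset.mem_range] at hj
            have e : w * X ^ (i - 1) * a j • (X ^ (c - j) * w * X ^ j) =
                a j • ((w * X ^ ((i - 1) + (c - j)) * w) * X ^ j) := by
              rw [mul_smul_comm, pow_add]
              simp only [mul_assoc]
            rw [e, hz _ (by omega), zero_mul, smul_zero]
        · intro h'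
          exact absurd (Finset.mem_range.2 (by omega)) h'
    rw [Finset.sum_eq_single c] at hP
    · rw [Nat.sub_self, pow_zero, one_mul] at hP
      have hac : a c ≠ 0 := by
        intro h
        rw [h, zero_smul] at hP
        exact hne hP
      apply (rank_contra hX hXu hR hwW hW hw hww (c - 1) (a c) hac).1
      rw [mul_sub, hP, mul_smul_comm, mul_assoc, ← pow_succ]
      have : c - 1 + 1 = c := by omega
      rw [this, sub_self]
    · intro j hj hjc
      rw [Finset.mem_range] at hj
      rw [hall j (by omega), zero_smul]
    · intro h'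
      exact absurd (Finset.mem_range.2 (by omega)) h'
  · have hQ := q_ne hN hW hw hc hz hne hP ha0
    have hmid := mid hc hz hP hQ
    -- the relation reduces to its two extreme terms
    have hP2 : w * X ^ (c - 1) * w = a 0 • (X ^ c * w) + a c • (w * X ^ c) := by
      rw [hP, Finset.sum_range_succ, ← Finset.sum_subset (s₁ := {0})]
      · rw [Finset.sum_singleton, Nat.sub_zero, Nat.sub_self, pow_zero, one_mul, mul_one]
      · intro x hx
        rw [Finset.mem_singleton] at hx
        rw [hx, Finset.mem_range]
        omega
      · intro x hx hx'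
        rw [Finset.mem_range] at hx
        rw [Finset.mem_singleton] at hx'
        rw [hmid x (by omega) hx, zero_smul]
    by_cases hac : a c = 0
    · rw [hac, zero_smul, add_zero] at hP2
      apply (rank_contra hX hXu hR hwW hW hw hww (c - 1) (a 0) ha0).2
      rw [sub_mul, sub_mul, hP2, smul_mul_assoc, smul_mul_assoc, ← pow_succ']
      have : c - 1 + 1 = c := by omega
      rw [this, sub_self]
    · -- vanishing away from the multiples of `c`
      have hstep : ∀ k, w * X ^ k * w = 0 → w * X ^ (k + c) * w = 0 := by
        intro k hk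
        have h1 : w * X ^ k * (w * X ^ (c - 1) * w) = 0 := by
          have e : w * X ^ k * (w * X ^ (c - 1) * w) =
              (w * X ^ k * w) * (X ^ (c - 1) * w) := by simp only [mul_assoc]
          rw [e, hk, zero_mul]
        rw [hP2, mul_add, mul_smul_comm, mul_smul_comm] at h1
        have e1 : w * X ^ k * (X ^ c * w) = w * X ^ (k + c) * w := by
          rw [pow_add]
          simp only [mul_assoc]
        have e2 : w * X ^ k * (w * X ^ c) = w * X ^ k * w * X ^ c := by
          simp only [mul_assoc]
        rw [e1, e2, hk, zero_mul, smul_zero, add_zero] at h1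
        rcases smul_eq_zero.1 h1 with h2 | h2
        · exact absurd h2 ha0
        · exact h2
      have hM : ∀ k, ¬ c ∣ k + 1 → w * X ^ k * w = 0 := by
        intro k
        induction k using Nat.strong_induction_on with
        | _ k ih =>
          intro hk
          by_cases hkc : k + 1 < c
          · exact hz k (by omega)
          · have hkne : k + 1 ≠ c := fun h => hk (h ▸ dvd_rfl)
            have h1 : w * X ^ (k - c) * w = 0 := by
              apply ih (k - c) (by omega)
              intro hd
              apply hk
              have : k + 1 = (k - c + 1) + c := by omega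
              rw [this]
              exact Nat.dvd_add hd dvd_rfl
            have h2 := hstep _ h1
            have : k - c + c = k := by omega
            rwa [this] at h2
      have hwords : ∀ n, W ^ n ≤
          ({ carrier := {A | ∀ k, ¬ c ∣ k + n + 1 → w * X ^ k * A * w = 0}
             add_mem' := by
               intro A B hA hB k hk
               rw [mul_add, add_mul, hA k hk, hB k hk, add_zero]
             zero_mem' := by
               intro k _
               rw [mul_zero, zero_mul]
             smul_mem' := by
               intro s A hA k hk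
               rw [mul_smul_comm, smul_mul_assoc, hA k hk, smul_zero] } :
            Submodule ℂ (Matrix (Fin D) (Fin D) ℂ)) := by
        intro n
        induction n with
        | zero =>
          rw [pow_zero, Submodule.one_le]
          intro k hk
          rw [mul_one]
          exact hM k hk
        | succ n ih =>
          rw [pow_succ', Submodule.mul_le]
          intro B hB A hA
          have hA' := ih hA
          intro k hk
          obtain ⟨s, t, rfl⟩ := Submodule.mem_span_pair.1 (hW hB)
          have e : w * X ^ k * ((s • X + t • w) * A) * w =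
              s • (w * X ^ (k + 1) * A * w) + t • ((w * X ^ k * w) * A * w) := by
            rw [add_mul, smul_mul_assoc, smul_mul_assoc, mul_add, mul_smul_comm, mul_smul_comm,
              add_mul, smul_mul_assoc, smul_mul_assoc, pow_succ]
            simp only [mul_assoc]
          rw [e]
          have h1 : w * X ^ (k + 1) * A * w = 0 := by
            apply hA'
            intro hd
            apply hk
            have : k + (n + 1) + 1 = k + 1 + n + 1 := by ring
            rw [this]
            exact hd
          have h2 : (w * X ^ k * w) * A * w = 0 := by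
            by_cases hd : c ∣ k + 1
            · have h3 : w * X ^ 0 * A * w = 0 := by
                apply hA'
                intro hd'
                apply hk
                have : k + (n + 1) + 1 = (k + 1) + (0 + n + 1) := by ring
                rw [this]
                exact Nat.dvd_add hd hd'
              rw [pow_zero, mul_one] at h3
              have e3 : (w * X ^ k * w) * A * w = w * X ^ k * (w * A * w) := by
                simp only [mul_assoc]
              rw [e3, h3, mul_zero]
            · rw [hM k hd, zero_mul, zero_mul]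
          rw [h1, h2, smul_zero, smul_zero, add_zero]
      have hN2 : W ^ (N + 1) = ⊤ := by
        rw [eq_top_iff, pow_succ', hN]
        intro A _
        obtain ⟨u, hu⟩ := hXu
        have e : A = X * (((u⁻¹ : (Matrix (Fin D) (Fin D) ℂ)ˣ) : Matrix (Fin D) (Fin D) ℂ) * A) := by
          rw [← hu, Units.mul_inv_cancel_left]
        rw [e]
        exact Submodule.mul_mem_mul hX Submodule.mem_top
      obtain ⟨n, hn, hd⟩ : ∃ n, W ^ n = ⊤ ∧ ¬ c ∣ 0 + n + 1 := by
        by_cases hd : c ∣ 0 + N + 1
        · refine ⟨N + 1, hN2, ?_⟩
          intro hd'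
          have h1 : c ∣ 1 := by
            have : 0 + (N + 1) + 1 = (0 + N + 1) + 1 := by ring
            rw [this] at hd'
            exact (Nat.dvd_add_right hd).1 hd'
          have := Nat.le_of_dvd one_pos h1
          omega
        · exact ⟨N, hN, hd⟩
      apply hw
      apply eq_zero_of_sandwich
      intro A
      have hA := hwords n (hn ▸ Submodule.mem_top : A ∈ W ^ n)
      have := hA 0 hd
      rwa [pow_zero, mul_one] at this

end Pool.Agent.Y79.MPS
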